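import Pool.Agent.N688.NC.PolyC

/-!
# Gaps between consecutive prime values of almost all polynomials: Bohr sets and all multiples

Let `P` be any integer polynomial of degree at most `D` (for instance `P = x²` or `P = x² + 3 x + 1`) and consider the
polynomials `f = P + b x + c` with integers `|b|, |c| ≤ N`. Which numbers occur as gaps between consecutive small
integers `n` for which `|f n|` is a prime, and how often?

For all `D, k, s` and `ε > 0` there are `B, q, H₀` and `ρ, δ, κ > 0` such that for all `H ≥ H₀`, `E`, `C`, `η > 0`,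
all `N ≥ N₀`, EVERY finite set `W` of integers `0 ≤ J ≤ (log N)^C` and EVERY integer polynomial `P` of degree at most
`D` with coefficients at most `N (log N)^E`, all but at most `η N²` of the pairs `(b, c)` of integers `|b|, |c| ≤ N`
for which `f = P + b x + c` has no fixed prime divisor have the following property: there is a Bohr set
`𝓑 ⊆ [-H, H]` of rank at most `q` and radius at least `ρ`, with at least `δ H` elements, such that for all but
`ε |𝓑|` of the `v ∈ 𝓑` and for ALL the multiples `j |v|`, `1 ≤ j ≤ s`, the following holds for a positive proportion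
`κ` of all the patterns `y_0 < y_1 < ⋯ < y_(k+1)` in `[0, H)` with `y_1 - y_0 = j |v|`: for a positive proportion `κ`
of the windows `J ∈ W` there is an integer `n` with `J < n ≤ J + (log N)^B` such that for the integers
`y_0 ≤ z ≤ y_(k+1)` the number `|f (n + z)|` is a prime if and only if `z` is one of the `y_i`. So the `k + 2` primes
`|f (n + y_i)|` are CONSECUTIVE prime values of `|f|`, and `j |v|` is exactly the gap between the first two of the
arguments.

In particular (`k = 0`): for almost all `f` almost all the elements `v` of a Bohr set have the property that every one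
of `v, 2 v, …, s v` is a gap between consecutive arguments `n ≤ (log N)^B` of prime values `|f n|`, and also in a
positive proportion of any family of such windows.

Method. (1) helper913's theorem on clusters of prime values (`MP_51e72e_nt.BoundedClusters`) for one class of `(b, c)`
modulo the small primes, used for a PRESCRIBED class of the positions `n` (`Pool.Agent.N688.NC.class_thm3`); (2) new:
for almost all `(b, c)` there are different small primes `q_u`, `u < 2 H`, modulo which `f` has a zero isolated by `H`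
(second moments over all `(b, c)` modulo `q`: `card_BdP`, `kill_familyP`), so that each shift outside a given set of
`K` shifts can be killed by two different primes and none of the others is (`exists_i0kP`, `mt3`, `polynomials3`), for
all the `K`-element subsets of `[0, H)` at the same time (`polyC`); (3) pigeonhole over the windows
(`Pool.Agent.N688.NA.common`); (4) a clique argument with extensions (`Pool.Agent.N688.FB.main2`) and the passage from
dense sets with few poor differences to Bohr sets and all multiples (`Pool.Agent.N646.AC.returnsZ`, helper646).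
-/

set_option autoImplicit false

open Filter Finset Topology

namespace Pool.Agent.Results.MP_d57abb_nt.GapsBetweenPrimeValues

open Classical in
/-- The Bohr set of the integers `|b| ≤ H` with `|exp (2 π i θ b) - 1| ≤ τ` for all `θ ∈ Θ`. -/
noncomputable def bohrSet (Θ : Finset ℝ) (τ : ℝ) (H : ℕ) : Finset ℤ :=
  (Icc (-(H : ℤ)) H).filter (fun b => ∀ θ ∈ Θ,
    ‖Complex.exp (2 * Real.pi * Complex.I * θ * b) - 1‖ ≤ τ)

/-- The polynomial `P + b x + c`. -/
noncomputable def pol (P : Polynomial ℤ) (b c : ℤ) : Polynomial ℤ :=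
  P + Polynomial.C b * Polynomial.X + Polynomial.C c

/-- No prime divides all the values of `f`. -/
def NoFixedDivisor (f : Polynomial ℤ) : Prop :=
  ∀ p : ℕ, p.Prime → ∃ t : ℤ, ¬ (p : ℤ) ∣ f.eval t

/-- The pattern `y` occurs in the window of `J`: there is an integer `n` in `(J, J + (log N) ^ B]` for which the
primes among the numbers `|f (n + z)|`, `y_0 ≤ z ≤ y_(k+1)`, are exactly the numbers `|f (n + y_i)|`. -/
def Occurs {k : ℕ} (B N J : ℕ) (f : Polynomial ℤ) (y : Fin (k + 2) → ℤ) : Prop :=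
  ∃ n : ℕ, J < n ∧ (n : ℝ) ≤ J + Real.log N ^ B ∧
    ∀ z : ℤ, y 0 ≤ z → z ≤ y (Fin.last (k + 1)) →
      ((f.eval ((n : ℤ) + z)).natAbs.Prime ↔ ∃ i, z = y i)

open Classical in
/-- The number of the windows `J ∈ W` in which the pattern `y` occurs. -/
noncomputable def frequency {k : ℕ} (B N : ℕ) (W : Finset ℕ) (f : Polynomial ℤ) (y : Fin (k + 2) → ℤ) : ℕ :=
  (W.filter (fun J => Occurs B N J f y)).card

open Classical in
/-- The number of the patterns `y ∈ [0, H) ^ (k + 2)`, `y_0 < ⋯ < y_(k+1)`, with `y_1 - y_0 = v`, which occur in at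
least `κ |W|` of the windows. -/
noncomputable def extensions (k B N : ℕ) (W : Finset ℕ) (f : Polynomial ℤ) (κ : ℝ) (H : ℕ) (v : ℤ) : ℕ :=
  ((Fintype.piFinset (fun _ : Fin (k + 2) => Ico 0 (H : ℤ))).filter (fun y =>
    y 1 - y 0 = v ∧ StrictMono y ∧ κ * W.card ≤ (frequency B N W f y : ℝ))).card

open Classical in
/-- There is a Bohr set `𝓑 ⊆ [-H, H]` of rank at most `q` and radius at least `ρ`, with at least `δ H` elements,
all but the proportion `ε` of which satisfy for all `1 ≤ j ≤ s`: the number of the extensions of `j |v|` is at least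
`κ H ^ (k + 1)`. -/
def BohrStructure (k s : ℕ) (ε : ℝ) (B q : ℕ) (ρ δ κ : ℝ) (H N : ℕ) (W : Finset ℕ) (f : Polynomial ℤ) : Prop :=
  ∃ (Θ : Finset ℝ) (τ : ℝ), Θ.card ≤ q ∧ ρ ≤ τ ∧ τ ≤ 1 ∧ δ * H ≤ (bohrSet Θ τ H).card ∧
    (((bohrSet Θ τ H).filter (fun v => ¬ ∀ j : ℕ, 1 ≤ j → j ≤ s →
      κ * (H : ℝ) ^ (k + 1) ≤ extensions k B N W f κ H (j * |v|))).card : ℝ) ≤
      ε * (bohrSet Θ τ H).card

/-- the count of the engine -/
theorem loc_le (k H : ℕ) (P Q : (Fin (k + 2) → ℤ) → Prop) [DecidablePred Q] (b : ℤ)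
    (h : ∀ y, y 1 - y 0 = b → P y → Q y) :
    Pool.Agent.N688.FB.loc k H P b ≤
      ((Fintype.piFinset (fun _ : Fin (k + 2) => Ico 0 (H : ℤ))).filter Q).card := by
  unfold Pool.Agent.N688.FB.loc
  apply card_le_card
  intro y hy
  simp only [Finset.mem_filter] at hy ⊢
  exact ⟨hy.1, h y hy.2.1 hy.2.2⟩

/-- **Gaps between consecutive prime values of almost all polynomials.** -/
theorem result (D k s : ℕ) (ε : ℝ) (hε : 0 < ε) :
    ∃ (B q H₀ : ℕ) (ρ δ κ : ℝ), 0 < ρ ∧ 0 < δ ∧ 0 < κ ∧
      ∀ H : ℕ, H₀ ≤ H → ∀ (E C : ℕ) (η : ℝ), 0 < η → ∃ N₀ : ℕ, ∀ N : ℕ, N₀ ≤ N →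
      ∀ W : Finset ℕ, (∀ J ∈ W, (J : ℝ) ≤ Real.log N ^ C) →
      ∀ P : Polynomial ℤ, P.natDegree ≤ D → (∀ i, |(P.coeff i : ℝ)| ≤ N * Real.log N ^ E) →
      ∃ Bad : Finset (ℤ × ℤ), (Bad.card : ℝ) ≤ η * N ^ 2 ∧
        ∀ b c : ℤ, |b| ≤ N → |c| ≤ N → NoFixedDivisor (pol P b c) → (b, c) ∉ Bad →
          BohrStructure k s ε B q ρ δ κ H N W (pol P b c) := by
  classical
  obtain ⟨K, B, hq⟩ := Pool.Agent.N688.NC.polyC D k
  obtain ⟨q, H₀, ρ, δ, κ, hρ, hδ, hκ, hmain⟩ := Pool.Agent.N688.NA.bohr_windows k s K ε hε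
  refine ⟨B, q, H₀, ρ, δ, κ, hρ, hδ, hκ, fun H hH E C η hη => ?_⟩
  obtain ⟨X₀, hX₀⟩ := hq H E C η hη
  refine ⟨X₀, fun N hN W hW P hP hPc => ?_⟩
  obtain ⟨Bad, hB2, hB3⟩ := hX₀ N hN W hW P hP hPc
  refine ⟨Bad, hB2, fun b c hb hc hloc hbc => ?_⟩
  obtain ⟨Θ, τ, h1, h2, h3, h4, h5⟩ := hmain H hH ℕ W
    (fun J y => Pool.Agent.N688.NC.OccPC B N J (pol P b c) y) (hB3 b c hb hc hloc hbc)
  refine ⟨Θ, τ, h1, h2, h3, h4, le_trans ?_ h5⟩
  rw [Nat.cast_le]
  apply card_le_card
  intro v hv
  rw [mem_filter] at hv ⊢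
  refine ⟨hv.1, fun hall => hv.2 fun j hj1 hj2 => (hall j hj1 hj2).trans ?_⟩
  rw [Nat.cast_le]
  unfold extensions
  refine loc_le _ _ _ _ _ ?_
  rintro y hy2 ⟨hy3, hy4⟩
  refine ⟨hy2, hy3, hy4.trans ?_⟩
  rw [Nat.cast_le]
  unfold Pool.Agent.N688.NA.freq frequency
  apply card_le_card
  intro J hJ
  rw [mem_filter] at hJ ⊢
  exact hJ

end Pool.Agent.Results.MP_d57abb_nt.GapsBetweenPrimeValues
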