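import Pool.Agent.N740.PA.Fin
import Pool.Agent.R460.SC.Ga

set_option autoImplicit false

/-!
# Conjecture F of Hardy and Littlewood with prescribed arguments, for almost all constant terms

Fix integers `a > 0` and `b` and let `f(t) = a t² + b t + c`. For all but `X / (log X)^A` of the constant terms
`1 ≤ c ≤ X`, and for all `y ≤ √X`:

* for **every** sequence of weights `|w(t)| ≤ 1` (for every set of arguments), without any hypothesis, the sum of `w(t)`
  over the `t ≤ y` for which `f(t)` is prime is, up to `√X / (log X)^C`, the sum of `w(t) / log f(t)` over the `t ≤ y` for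
  which `f(t)` has no prime factor `≤ z = (log X)^E`, divided by `∏_{p ≤ z} (1 - 1/p)`;
* if `0 ≤ w ≤ 1` is equidistributed in the residue classes of the moduli `d ≤ (log X)^B`, and `(a, b, c)` is admissible,
  the sum is `2 C(a, b, c) ∑_{t ≤ y} w(t) / log f(t)`, up to a relative error `ε` and `√X / (log X)^C`: the formula of
  Conjecture F holds along the weights `w`;
* for example, for both signs `e`, the number of the `t ≤ y` with `f(t)` prime and `λ(t) = e` (the Liouville function) is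
  `C(a, b, c) ∑_{t ≤ y} 1 / log f(t)`, up to a relative error `ε` (relative to the sum over all `t ≤ √X`).

Proof: the second moment over `c` of the weighted sums of the primes minus their sieve model (the theorem of Siegel and
Walfisz and Vinogradov's estimate on the major and the minor arcs, and the bound of the number of representations by
`g(t) - g(t')`, see `N740/PA/Second` and `N740/PA/Most`), the fundamental lemma of the sieve with weights
(`N740/PA/FL`), partial summation, and the large sieve for the rest of the product (`R460/SC`).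
-/

namespace Pool.Agent.Results.MP_d57abb_nt.PrescribedArguments

open Finset Filter Topology

/-- The polynomial. -/
def f (a b c : ℤ) (t : ℕ) : ℤ := a * (t : ℤ) ^ 2 + b * (t : ℤ) + c

/-- The triple `(a, b, c)`, `a > 0`, is admissible. -/
def Admissible (a b c : ℤ) : Prop :=
  Int.gcd (Int.gcd a b : ℤ) c = 1 ∧ ¬ (Even (a + b) ∧ Even c) ∧ ¬ IsSquare (b ^ 2 - 4 * a * c)

/-- The products which define `C(a, b, c)`, over the primes `p ≤ z` (`jacobiSym Δ p` is the Legendre symbol). -/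
noncomputable def partialC (a b c : ℤ) (z : ℕ) : ℝ :=
  (if Odd (a + b) then 1 / 2 else 1) *
    (∏ p ∈ (Icc 3 z).filter (fun p : ℕ => p.Prime ∧ (p : ℤ) ∣ a ∧ (p : ℤ) ∣ b), (p : ℝ) / (p - 1)) *
    ∏ p ∈ (Icc 3 z).filter (fun p : ℕ => p.Prime ∧ ¬ (p : ℤ) ∣ a),
      (1 - (jacobiSym (b ^ 2 - 4 * a * c) p : ℝ) / (p - 1))

/-- `K = C(a, b, c)`: the products over the primes, in increasing order, converge to `K`. -/
def IsC (a b c : ℤ) (K : ℝ) : Prop := Tendsto (partialC a b c) atTop (𝓝 K)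

/-- The sum of `w(t)` over the `1 ≤ t ≤ y` for which `f(t)` is prime. -/
noncomputable def primeSum (a b c : ℤ) (w : ℕ → ℝ) (y : ℕ) : ℝ :=
  ∑ t ∈ (Icc 1 y).filter (fun t : ℕ => (f a b c t).toNat.Prime), w t

/-- The sum of `w(t) / log f(t)` over the `1 ≤ t ≤ y`. -/
noncomputable def logSum (a b c : ℤ) (w : ℕ → ℝ) (y : ℕ) : ℝ :=
  ∑ t ∈ Icc 1 y, w t / Real.log ((f a b c t : ℤ) : ℝ)

open Classical in
/-- The sum of `w(t) / log f(t)` over the `1 ≤ t ≤ y` for which `f(t)` has no prime factor `≤ z`, divided by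
`∏_{p ≤ z} (1 - 1/p)`. -/
noncomputable def sieveSum (a b c : ℤ) (w : ℕ → ℝ) (z y : ℕ) : ℝ :=
  (∏ p ∈ (Icc 1 z).filter Nat.Prime, (1 - 1 / (p : ℝ)))⁻¹ *
    ∑ t ∈ (Icc 1 y).filter (fun t : ℕ => ∀ p ∈ (Icc 1 z).filter Nat.Prime, ¬ (p : ℤ) ∣ f a b c t),
      w t / Real.log ((f a b c t : ℤ) : ℝ)

/-- The weights are equidistributed in the residue classes of the moduli `d ≤ (log X)^B`, for all `y ≤ √X`. -/
def Equidistributed (X B : ℕ) (w : ℕ → ℝ) : Prop :=
  ∀ d : ℕ, 1 ≤ d → (d : ℝ) ≤ Real.log X ^ B → ∀ r y : ℕ, y ^ 2 ≤ X →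
    |∑ t ∈ (Icc 1 y).filter (fun t => t ≡ r [MOD d]), w t - (∑ t ∈ Icc 1 y, w t) / (d : ℝ)| ≤
      √(X : ℝ) / Real.log X ^ B

/-- The Liouville function. -/
def lam (t : ℕ) : ℤ := (-1) ^ ArithmeticFunction.cardFactors t

/-- The number of the `1 ≤ t ≤ y` with `f(t)` prime and `λ(t) = e`. -/
def count (a b c e : ℤ) (y : ℕ) : ℕ := ((Icc 1 y).filter (fun t : ℕ => (f a b c t).toNat.Prime ∧ lam t = e)).card

/-- The formula along the weights `w`, for one constant term `c`. -/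
def GoodW (a b : ℤ) (ε : ℝ) (C X : ℕ) (w : ℕ → ℝ) (c : ℤ) : Prop :=
  ∃ K : ℝ, 0 < K ∧ IsC a b c K ∧ ∀ y : ℕ, y ^ 2 ≤ X →
    |primeSum a b c w y - 2 * K * logSum a b c w y| ≤
      ε * (2 * K * logSum a b c w y) + √(X : ℝ) / Real.log X ^ C

/-- The formula for the arguments with `λ(t) = e`, for one constant term `c`. -/
def GoodL (a b : ℤ) (ε : ℝ) (X : ℕ) (c : ℤ) : Prop :=
  ∃ K : ℝ, 0 < K ∧ IsC a b c K ∧ ∀ e : ℤ, (e = 1 ∨ e = -1) → ∀ y : ℕ, y ^ 2 ≤ X →
    |(count a b c e y : ℝ) - K * ∑ t ∈ Icc 1 y, 1 / Real.log ((f a b c t : ℤ) : ℝ)| ≤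
      ε * (K * ∑ t ∈ Icc 1 (Nat.sqrt X), 1 / Real.log ((f a b c t : ℤ) : ℝ))

lemma not_dvd {a b c : ℤ} (h : Admissible a b c) {p : ℕ} (hp : p.Prime) (ha : (p : ℤ) ∣ a) (hb : (p : ℤ) ∣ b) :
    ¬ (p : ℤ) ∣ c := by
  intro hc
  have h1 : (p : ℤ) ∣ (Int.gcd (Int.gcd a b : ℤ) c : ℤ) := Int.dvd_coe_gcd (Int.dvd_coe_gcd ha hb) hc
  rw [h.1] at h1
  have h2 : p ∣ 1 := by exact_mod_cast h1
  exact hp.one_lt.ne' (Nat.dvd_one.1 h2)

/-- an admissible polynomial has no fixed prime divisor -/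
lemma no_fixed {a b c : ℤ} (h : Admissible a b c) (p : ℕ) (hp : p.Prime) : ∃ m : ℕ, ¬ (p : ℤ) ∣ f a b c m := by
  by_contra hcon
  push Not at hcon
  have h0 := hcon 0
  have h1 := hcon 1
  have h2 := hcon 2
  unfold f at h0 h1 h2
  push_cast at h0 h1 h2
  have g0 : (p : ℤ) ∣ c := by simpa using h0
  have g1 : (p : ℤ) ∣ a + b := by
    have : (p : ℤ) ∣ (a * 1 ^ 2 + b * 1 + c) - c := dvd_sub h1 g0
    have e : (a * 1 ^ 2 + b * 1 + c) - c = a + b := by ring
    rwa [e] at this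
  have g2 : (p : ℤ) ∣ 2 * a := by
    have : (p : ℤ) ∣ (a * 2 ^ 2 + b * 2 + c) - c - 2 * (a + b) := dvd_sub (dvd_sub h2 g0) (Dvd.dvd.mul_left g1 2)
    have e : (a * 2 ^ 2 + b * 2 + c) - c - 2 * (a + b) = 2 * a := by ring
    rwa [e] at this
  by_cases hp2 : p = 2
  · subst hp2
    exact h.2.1 ⟨even_iff_two_dvd.2 (by exact_mod_cast g1), even_iff_two_dvd.2 (by exact_mod_cast g0)⟩
  · have hpz : Prime (p : ℤ) := Nat.prime_iff_prime_int.1 hp
    rcases hpz.dvd_or_dvd g2 with g | g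
    · have : p ∣ 2 := by exact_mod_cast g
      exact hp2 ((Nat.prime_dvd_prime_iff_eq hp Nat.prime_two).1 this)
    · have gb : (p : ℤ) ∣ b := (dvd_add_right g).1 g1
      exact not_dvd h hp g gb g0

lemma fv_eq (a b c : ℤ) (t : ℕ) : Pool.Agent.R460.SB.fv (-a) (-b) c t = f a b c t := by
  unfold Pool.Agent.R460.SB.fv f
  ring

lemma sz_eq {a b c : ℤ} (hc : Admissible a b c) {z : ℕ} (hz : 2 ≤ z) :
    Pool.Agent.R460.SB.Sz (-a) (-b) c z = 2 * partialC a b c z := by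
  have hr : ∀ (c : ℤ) (p : ℕ),
      Pool.Agent.H373R2.T7.nuB (Pool.Agent.R460.SB.QS (-a) (-b) c) p = Pool.Agent.R460.SC.om a b c p := by
    intro c p
    unfold Pool.Agent.R460.SC.om Pool.Agent.H373R2.T7.nuB Pool.Agent.R460.SB.QS
    have e : ∀ m : ℕ, ((p : ℤ) ∣ c - (-a * (m : ℤ) ^ 2 + -b * (m : ℤ))) ↔
        (p : ℤ) ∣ a * (m : ℤ) ^ 2 + b * (m : ℤ) + c := by
      intro m
      have e1 : c - (-a * (m : ℤ) ^ 2 + -b * (m : ℤ)) = a * (m : ℤ) ^ 2 + b * (m : ℤ) + c := by ring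
      rw [e1]
    congr 1
    ext m
    simp only [mem_filter, e]
  have e1 := Pool.Agent.R460.SC.cf_eq hc.2.1 (fun p hp h1 h2 => not_dvd hc hp h1 h2) (fun p hp h2 hpa => by
    have hpa' : ¬ (p : ℤ) ∣ -a := by rwa [dvd_neg]
    have h1 := Pool.Agent.R460.SB.nu_leg (-a) (-b) c hp (by omega) hpa'
    have h3 : 4 * (-a) * c + (-b) ^ 2 = b ^ 2 - 4 * a * c := by ring
    rw [h3, hr] at h1
    exact_mod_cast h1) hz
  rw [Pool.Agent.R460.SB.Sz_prod]
  have e2 : partialC a b c z = Pool.Agent.R460.SC.cf a b c z := rfl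
  rw [e2, ← e1]
  unfold Pool.Agent.H373R2.T7.pz
  refine prod_congr rfl fun p _ => ?_
  rw [hr]

lemma isC_of {a b c : ℤ} (hc : Admissible a b c) {s : ℝ}
    (h : Tendsto (fun z : ℕ => Pool.Agent.R460.SB.Sz (-a) (-b) c z) atTop (𝓝 s)) : IsC a b c (s / 2) := by
  have e1 : Tendsto (fun z : ℕ => Pool.Agent.R460.SB.Sz (-a) (-b) c z / 2) atTop (𝓝 (s / 2)) := h.div_const 2
  refine e1.congr' ?_
  filter_upwards [eventually_ge_atTop 2] with z hz
  rw [sz_eq hc hz]
  ring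

lemma primeSum_eq (a b c : ℤ) (w : ℕ → ℝ) (y : ℕ) :
    ∑ t ∈ Icc 1 y, w t * Pool.Agent.N740.PA.ip (Pool.Agent.R460.SB.fv (-a) (-b) c t) = primeSum a b c w y := by
  unfold primeSum
  rw [sum_filter]
  apply sum_congr rfl
  intro t _
  rw [fv_eq]
  unfold Pool.Agent.N740.PA.ip
  split_ifs <;> simp

lemma logSum_eq (a b c : ℤ) (w : ℕ → ℝ) (y : ℕ) :
    ∑ t ∈ Icc 1 y, w t * Pool.Agent.R460.SB.wl a b c t = logSum a b c w y := by
  unfold logSum
  apply sum_congr rfl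
  intro t _
  unfold Pool.Agent.R460.SB.wl
  rw [fv_eq, mul_one_div]

open Classical in
/-- The number of the exceptional constant terms. -/
noncomputable def exceptions (X : ℕ) (P : ℤ → Prop) : ℕ := ((Icc 1 (X : ℤ)).filter (fun c : ℤ => P c)).card

theorem result (a b : ℤ) (ha : 0 < a) (A C : ℕ) :
    (∃ E₀ : ℕ, ∀ E : ℕ, E₀ ≤ E → ∃ X₀ : ℕ, ∀ X : ℕ, X₀ ≤ X → ∀ w : ℕ → ℝ, (∀ t, |w t| ≤ 1) →
      (exceptions X (fun c => ∃ y : ℕ, y ^ 2 ≤ X ∧ √(X : ℝ) / Real.log X ^ C <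
        |primeSum a b c w y - sieveSum a b c w ⌊Real.log X ^ E⌋₊ y|) : ℝ) ≤ X / Real.log X ^ A) ∧
    (∀ ε : ℝ, 0 < ε → ∃ B X₀ : ℕ, ∀ X : ℕ, X₀ ≤ X → ∀ w : ℕ → ℝ, (∀ t, 0 ≤ w t ∧ w t ≤ 1) →
      Equidistributed X B w →
      (exceptions X (fun c => Admissible a b c ∧ ¬ GoodW a b ε C X w c) : ℝ) ≤ X / Real.log X ^ A) ∧
    (∀ ε : ℝ, 0 < ε → ∃ X₀ : ℕ, ∀ X : ℕ, X₀ ≤ X →
      (exceptions X (fun c => Admissible a b c ∧ ¬ GoodL a b ε X c) : ℝ) ≤ X / Real.log X ^ A) := by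
  classical
  refine ⟨?_, ?_, ?_⟩
  · obtain ⟨E1, h1⟩ := Pool.Agent.N740.PA.arb a b ha A C
    refine ⟨E1, fun E hE => ?_⟩
    obtain ⟨X0, h2⟩ := h1 E hE
    refine ⟨X0, fun X hX w hw => ?_⟩
    obtain ⟨Ex, h3, h4⟩ := h2 X hX w hw
    refine le_trans ?_ h3
    unfold exceptions
    refine Nat.cast_le.2 (card_le_card ?_)
    · intro c hc
      rw [mem_filter, mem_Icc] at hc
      by_contra hcE
      obtain ⟨hcb, h5⟩ := h4 c hc.1.1 hc.1.2 hcE
      obtain ⟨y, hy, h6⟩ := hc.2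
      have h7 := h5 y hy
      rw [primeSum_eq] at h7
      have h8 : ∑ t ∈ Icc 1 y, w t * (Pool.Agent.H373R2.T7.lamz ⌊Real.log X ^ E⌋₊ (Pool.Agent.R460.SB.fv (-a) (-b) c t).toNat *
          Pool.Agent.TH892.SW.wt (Pool.Agent.R460.SB.fv (-a) (-b) c t).toNat) = sieveSum a b c w ⌊Real.log X ^ E⌋₊ y := by
        unfold sieveSum
        rw [sum_filter, mul_sum]
        apply sum_congr rfl
        intro t _
        rw [Pool.Agent.N740.PA.model_eq ha hcb]
        have h9 : Pool.Agent.N740.PA.Fr a b c ⌊Real.log X ^ E⌋₊ t ↔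
            ∀ p ∈ (Icc 1 ⌊Real.log X ^ E⌋₊).filter Nat.Prime, ¬ (p : ℤ) ∣ f a b c t := by
          unfold Pool.Agent.N740.PA.Fr
          apply forall₂_congr
          intro p _
          rw [not_iff_not, ← fv_eq]
          exact Iff.rfl
        have h10 : Pool.Agent.H373R2.T7.Vz ⌊Real.log X ^ E⌋₊ =
            ∏ p ∈ (Icc 1 ⌊Real.log X ^ E⌋₊).filter Nat.Prime, (1 - 1 / (p : ℝ)) := rfl
        rw [h10]
        unfold Pool.Agent.R460.SB.wl
        rw [fv_eq]
        by_cases h11 : Pool.Agent.N740.PA.Fr a b c ⌊Real.log X ^ E⌋₊ t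
        · rw [if_pos h11, if_pos (h9.1 h11)]
          ring
        · rw [if_neg h11, if_neg (fun h => h11 (h9.2 h))]
          ring
      rw [h8] at h7
      linarith
  · intro ε hε
    obtain ⟨B, X0, h1⟩ := Pool.Agent.N740.PA.asm a b ha A C ε hε
    refine ⟨B, X0 + 3, fun X hX w hw hE => ?_⟩
    refine le_trans ?_ (h1 X (by omega) w hw hE)
    unfold exceptions
    have hX3 : (3 : ℝ) ≤ X := by exact_mod_cast (by omega : 3 ≤ X)
    have hL0 : 0 < Real.log X := Real.log_pos (by linarith)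
    refine Nat.cast_le.2 (card_le_card ?_)
    · intro c hc
      simp only [mem_filter] at hc ⊢
      refine ⟨hc.1, fun hg => hc.2.2 ?_⟩
      obtain ⟨s, g1, _, g3, g4⟩ := hg
      have hs0 : 0 < s := lt_of_lt_of_le (by positivity) (g3 fun p hp => by
        obtain ⟨m, hm⟩ := no_fixed hc.2.1 p hp
        exact ⟨m, by rwa [fv_eq]⟩)
      refine ⟨s / 2, by linarith, isC_of hc.2.1 g1, fun y hy => ?_⟩
      have g5 := g4 y hy
      rw [primeSum_eq, logSum_eq] at g5
      have e2 : 2 * (s / 2) = s := by ring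
      rw [e2]
      exact g5
  · intro ε hε
    obtain ⟨X0, h1⟩ := Pool.Agent.N740.PA.fin_li a b ha A ε hε
    refine ⟨X0, fun X hX => ?_⟩
    refine le_trans ?_ (h1 X hX)
    unfold exceptions
    refine Nat.cast_le.2 (card_le_card ?_)
    · intro c hc
      simp only [mem_filter] at hc ⊢
      refine ⟨hc.1, fun p hp => ?_, fun hg => hc.2.2 ?_⟩
      · obtain ⟨m, hm⟩ := no_fixed hc.2.1 p hp
        exact ⟨m, by rwa [fv_eq]⟩
      · obtain ⟨s, g1, g2, g3⟩ := hg
        refine ⟨s / 2, by linarith, isC_of hc.2.1 g1, fun e he y hy => ?_⟩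
        have he' : ((e : ℤ) : ℝ) = 1 ∨ ((e : ℤ) : ℝ) = -1 := by
          rcases he with rfl | rfl
          · left; norm_num
          · right; norm_num
        have g4 := g3 (e : ℝ) he' y hy
        have e1 : (Icc 1 y).filter (fun t : ℕ => (Pool.Agent.R460.SB.fv (-a) (-b) c t).toNat.Prime ∧
            Pool.Agent.N740.PA.lio t = (e : ℝ)) =
            (Icc 1 y).filter (fun t : ℕ => (f a b c t).toNat.Prime ∧ lam t = e) := by
          apply filter_congr
          intro t _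
          rw [fv_eq]
          have : Pool.Agent.N740.PA.lio t = (e : ℝ) ↔ lam t = e := by
            unfold Pool.Agent.N740.PA.lio lam
            constructor
            · intro h
              exact_mod_cast h
            · intro h
              exact_mod_cast h
          rw [this]
        have e2 : ∀ n : ℕ, ∑ t ∈ Icc 1 n, Pool.Agent.R460.SB.wl a b c t =
            ∑ t ∈ Icc 1 n, 1 / Real.log ((f a b c t : ℤ) : ℝ) := by
          intro n
          apply sum_congr rfl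
          intro t _
          unfold Pool.Agent.R460.SB.wl
          rw [fv_eq]
        rw [e1, e2, e2] at g4
        exact g4

end Pool.Agent.Results.MP_d57abb_nt.PrescribedArguments
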