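import Mathlib
import Pool.Agent.N511.PN.Fin
import Pool.Agent.N511.PN.Dense

/-!
# The density of Q1 in small profinite neighbourhoods of `k² + 3k + 1`

The density `L(c₀)` of the prime values predicted for `k² + 3k + c₀` (`1.77 < L(1) < 1.78`) is the right one
for almost all polynomials `k² + 3k + c`, `c` of either sign, of every sufficiently small residue class around
`c₀`, in families `|c| ≤ C` far shorter than the range of the arguments; and no residue class does more: in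
each of them every density occurs with a positive proportion.

Proof. The prime counts are compared with the truncated products by the theorems of helper792 and helper791
(positive and negative constant terms, uniform in the linear coefficient). In the class `c ≡ c₀ (mod q)` the
factors at the primes `p ≤ y` are the ones of `c₀`, and the product of the factors at the primes
`y < p ≤ z` is near `1` for almost all `c` of the class (second moment, Gauss sums); the product for `c₀`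
converges. For the second part the signs `((9 - 4c)/p)` at the primes `y < p ≤ z` are prescribed such that the
truncated product is near the target (the sum of `1/p` diverges).
-/

set_option autoImplicit false

namespace Pool.Agent.Results.MP_d57abb_nt.ProfiniteNeighbourhoods

open Finset Filter Topology
open Classical in
section

/-- `P_c(n)`: the number of `1 ≤ k ≤ n` for which the integer `k² + 3k + c` is a (positive) prime number -/
def P (c : ℤ) (n : ℕ) : ℕ := #((Icc 1 n).filter (fun k : ℕ => ((k : ℤ) ^ 2 + 3 * k + c).toNat.Prime))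

/-- `∏_{3 ≤ p ≤ z} (1 - ((9 - 4c)/p)/(p - 1))`, `p` prime -/
noncomputable def partialProd (c : ℤ) (z : ℕ) : ℝ :=
  ∏ p ∈ (Icc 3 z).filter Nat.Prime, (1 - (jacobiSym (9 - 4 * c) p : ℝ) / ((p : ℝ) - 1))

/-- `α π(n) < P_c(n) < β π(n)` for all `n` with `κ N ≤ n ≤ N` -/
def Between (κ α β : ℝ) (N : ℕ) (c : ℤ) : Prop := ∀ n : ℕ, κ * N ≤ n → n ≤ N →
  α * Nat.primeCounting n < P c n ∧ (P c n : ℝ) < β * Nat.primeCounting n

/-- the number of the integers `c` with `|c| ≤ C`, `c ≡ c₀ (mod q)` and the property `F` -/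
noncomputable def members (C q : ℕ) (c₀ : ℤ) (F : ℤ → Prop) : ℕ :=
  #((Icc (-(C : ℤ)) C).filter (fun c : ℤ => c ≡ c₀ [ZMOD q] ∧ F c))

theorem members_le {C q : ℕ} {c₀ : ℤ} {F : ℤ → Prop} {G : Finset ℤ}
    (h : ∀ c : ℤ, c ∈ Icc (-(C : ℤ)) C → c ≡ c₀ [ZMOD q] → F c → c ∈ G) : members C q c₀ F ≤ #G := by
  unfold members
  refine card_le_card fun c hc => ?_
  rw [mem_filter] at hc
  exact h c hc.1 hc.2.1 hc.2.2

theorem le_members {C q : ℕ} {c₀ : ℤ} {F : ℤ → Prop} {G : Finset ℕ} (f : ℕ → ℤ) (hf : Function.Injective f)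
    (h : ∀ c ∈ G, f c ∈ Icc (-(C : ℤ)) C ∧ f c ≡ c₀ [ZMOD q] ∧ F (f c)) : #G ≤ members C q c₀ F := by
  unfold members
  refine card_le_card_of_injOn f (fun c hc => ?_) (hf.injOn)
  rw [mem_coe, mem_filter]
  exact h c hc

/-- **The density of `k² + 3k + c₀` is the one of almost all its neighbours.** For every odd integer `c₀`
the limit `L` of the products `∏_{3 ≤ p ≤ z} (1 - ((9 - 4c₀)/p)/(p - 1))` exists, `L > 0`, and
`1.77 < L < 1.78` for `c₀ = 1`.

(1) For `ε, κ, δ > 0` and `α < L < β` there is `y₀` such that for `y ≥ y₀` and every `q` whose prime divisors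
are exactly the primes `≤ y`, for all large `N` and all `C` with `N^(5/6 + ε) ≤ C ≤ N`: all but `δ C/q` of the
integers `|c| ≤ C` with `c ≡ c₀ (mod q)` satisfy `α π(n) < P_c(n) < β π(n)` for all `κ N ≤ n ≤ N`.

(2) For all `ε, κ > 0`, `α < β`, `β > 0` and every `q` there is `θ > 0` such that for all large `N`, all `C` with
`N^(5/6 + ε) ≤ C ≤ N` and both signs `σ`, at least `θ C` of the integers `|c| ≤ C` with `c ≡ c₀ (mod q)` and
`σ c > 0` satisfy `α π(n) < P_c(n) < β π(n)` for all `κ N ≤ n ≤ N`. -/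
theorem result (c₀ : ℤ) (hc₀ : Odd c₀) :
    ∃ L : ℝ, 0 < L ∧ Tendsto (partialProd c₀) atTop (𝓝 L) ∧ (c₀ = 1 → 1.77 < L ∧ L < 1.78) ∧
    (∀ ε κ δ α β : ℝ, 0 < ε → 0 < κ → 0 < δ → α < L → L < β → ∃ y0 : ℕ, ∀ y : ℕ, y0 ≤ y → ∀ q : ℕ, 1 ≤ q →
      (∀ p : ℕ, p.Prime → (p ∣ q ↔ p ≤ y)) → ∃ N0 : ℕ, ∀ N : ℕ, N0 ≤ N → ∀ C : ℕ,
      (N : ℝ) ^ (5 / 6 + ε) ≤ C → C ≤ N →
        (members C q c₀ (fun c => ¬ Between κ α β N c) : ℝ) ≤ δ * (C / q)) ∧
    (∀ ε κ α β : ℝ, 0 < ε → 0 < κ → α < β → 0 < β → ∀ q : ℕ, 1 ≤ q → ∃ θ : ℝ, 0 < θ ∧ ∃ N0 : ℕ, ∀ N : ℕ,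
      N0 ≤ N → ∀ C : ℕ, (N : ℝ) ^ (5 / 6 + ε) ≤ C → C ≤ N → ∀ σ : ℤ, σ = 1 ∨ σ = -1 →
        θ * C ≤ members C q c₀ (fun c => 0 < σ * c ∧ Between κ α β N c)) := by
  obtain ⟨L, hL0, hL⟩ := Pool.Agent.N511.PN.L2.T_lim hc₀
  have hP : ∀ (c : ℤ) (n : ℕ), P c n = Pool.Agent.N511.PN.cz c n := fun _ _ => rfl
  refine ⟨L, hL0, ?_, ?_, ?_, ?_⟩
  · exact hL
  · intro h1
    subst h1
    exact Pool.Agent.N511.PN.num L hL
  · intro ε κ δ α β hε hκ hδ hα hβ
    obtain ⟨δ1, hδ1⟩ : ∃ δ1 : ℝ, δ1 = min δ (min ((L - α) / 2) ((β - L) / 2)) := ⟨_, rfl⟩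
    have h10 : 0 < δ1 := by
      rw [hδ1]
      exact lt_min hδ (lt_min (by linarith) (by linarith))
    have h11 : δ1 ≤ δ := by rw [hδ1]; exact min_le_left _ _
    have h12 : δ1 ≤ (L - α) / 2 := by rw [hδ1]; exact (min_le_right _ _).trans (min_le_left _ _)
    have h13 : δ1 ≤ (β - L) / 2 := by rw [hδ1]; exact (min_le_right _ _).trans (min_le_right _ _)
    obtain ⟨y0, h⟩ := Pool.Agent.N511.PN.both hc₀ hL0 hL hε hκ h10
    refine ⟨y0, fun y hy q hq1 hq => ?_⟩
    obtain ⟨N1, h⟩ := h y hy q hq1 hq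
    obtain ⟨N2, hN2⟩ := Pool.Agent.N511.PN.L2.pnt_unif hκ (by norm_num : (0 : ℝ) < 1) 1
    refine ⟨N1 + N2, fun N hN C hC1 hC2 => ?_⟩
    refine le_trans ?_ ((h N (by omega) C hC1 hC2).trans (mul_le_mul_of_nonneg_right h11 (by positivity)))
    refine Nat.cast_le.2 (members_le fun c hcI hcm hcb => ?_)
    rw [mem_filter]
    refine ⟨hcI, hcm, fun hall => hcb fun n hn1 hn2 => ?_⟩
    have hπ := (hN2 N (by omega) n hn1 hn2).2.1
    have h2 := abs_le.1 (hall n hn1 hn2)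
    rw [hP]
    obtain ⟨π, hπe⟩ : ∃ π : ℝ, π = Nat.primeCounting n := ⟨_, rfl⟩
    rw [← hπe] at hπ h2 ⊢
    have e1 : δ1 * π ≤ (L - α) / 2 * π := mul_le_mul_of_nonneg_right h12 hπ.le
    have e2 : δ1 * π ≤ (β - L) / 2 * π := mul_le_mul_of_nonneg_right h13 hπ.le
    have e3 : 0 < (β - L) * π := mul_pos (by linarith) hπ
    have e4 : 0 < (L - α) * π := mul_pos (by linarith) hπ
    constructor <;> nlinarith
  · intro ε κ α β hε hκ hαβ hβ q hq
    have hd := fun (σ : ℤ) (hσ : σ = 1 ∨ σ = -1) => Pool.Agent.N511.PN.dense_sign Pool.Agent.N511.LL.b2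
      Pool.Agent.N511.LL.f1 Pool.Agent.N511.LL.f2 hσ (Pool.Agent.N511.PN.hs_all hσ) hc₀ hq hαβ hβ hε hκ
    obtain ⟨θ1, hθ1, N1, h1⟩ := hd 1 (Or.inl rfl)
    obtain ⟨θ2, hθ2, N2, h2⟩ := hd (-1) (Or.inr rfl)
    refine ⟨min θ1 θ2, lt_min hθ1 hθ2, N1 + N2, fun N hN C hC1 hC2 σ hσ => ?_⟩
    have key : ∀ θ : ℝ, θ * C ≤ #((Icc 1 C).filter (fun c : ℕ => σ * c ≡ c₀ [ZMOD q] ∧ ∀ n : ℕ, κ * N ≤ n → n ≤ N →
        α * Nat.primeCounting n < Pool.Agent.N511.PN.cz (σ * c) n ∧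
          (Pool.Agent.N511.PN.cz (σ * c) n : ℝ) < β * Nat.primeCounting n)) →
        θ * C ≤ members C q c₀ (fun c => 0 < σ * c ∧ Between κ α β N c) := by
      intro θ h
      refine h.trans (Nat.cast_le.2 ?_)
      refine le_members (fun c : ℕ => σ * (c : ℤ)) ?_ ?_
      · intro a b hab
        rcases hσ with rfl | rfl <;> simp only at hab <;> omega
      · intro c hc
        rw [mem_filter, mem_Icc] at hc
        obtain ⟨⟨hc1, hc2⟩, hcm, hcb⟩ := hc
        refine ⟨mem_Icc.2 ?_, hcm, ?_, hcb⟩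
        · rcases hσ with rfl | rfl <;> constructor <;> omega
        · rcases hσ with rfl | rfl <;> omega
    have hC0 : (0 : ℝ) ≤ C := Nat.cast_nonneg C
    rcases hσ with rfl | rfl
    · exact key _ ((mul_le_mul_of_nonneg_right (min_le_left _ _) hC0).trans (h1 N (by omega) C hC1 hC2))
    · exact key _ ((mul_le_mul_of_nonneg_right (min_le_right _ _) hC0).trans (h2 N (by omega) C hC1 hC2))

end

end Pool.Agent.Results.MP_d57abb_nt.ProfiniteNeighbourhoods
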