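import Pool.Agent.N728.QU.Dens

set_option autoImplicit false

/-!
# The density of the primes `k² + 3 k + A` for almost all members of thin families

Let `c` be an odd integer. For almost all `h` the polynomial `X² + 3 X + A`, `A = c - (h² + 3 h)`, takes the number of
prime values predicted by Bateman and Horn: `(C / 2 + o(1)) (M - h) / log H` for `h ≤ M ≤ K H` (its values at `k < h` are
at most `|c|`), where `C = ∏_p (1 - ω(p)/p) (1 - 1/p)⁻¹`; all but at most `ε H` of the `h ≤ H`. For `c = 1` and `h = 0`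
the polynomial is `X² + 3 X + 1`, and the formula is the one of the problem, `C / 2` times the number of primes up to `M`.

Proof (`Agent/N728/QU`): `k² + 3 k + A = u v + c` with `u = k - h`, `v = u + 2 h + 3` (and `c - u v` with `u = h - k`,
`v = - u + 2 h + 3` for `k < h`). Bilinear sums over `c ± u v` with an arbitrary bounded function of `v ∓ u` do not change
if a divisor of `u v`, composed of primes of a suitable range, is moved from `u` to `v`; by the multiplication table
phenomenon of Erdős few multiplicative windows contain such a divisor, and the off-diagonal terms are bounded by two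
applications of the Cauchy-Schwarz inequality and the fundamental lemma of the sieve (functions with mean zero on the
cells (residue class and block)). For the functions constant on the cells the range is shifted, by moving divisors again,
to `u ≤ v / (log v)^C`, where the theorem of Bombieri and Vinogradov at the sharp level applies. The constants are
controlled by the large sieve for quadratic characters.
-/

namespace Pool.Agent.Results.MP_d57abb_nt.ThinFamilyDensity

open Finset Filter Topology

/-- The value `k² + 3 k + A`. -/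
def value (A : ℤ) (k : ℕ) : ℤ := (k : ℤ) ^ 2 + 3 * k + A

/-- `ω(p)`, the number of the residues `k` modulo `p` with `k² + 3 k + A ≡ 0`. -/
def omega (A : ℤ) (p : ℕ) : ℕ := ((range p).filter (fun k : ℕ => (p : ℤ) ∣ value A k)).card

/-- The partial products `∏_{p ≤ z} (1 - ω(p)/p) (1 - 1/p)⁻¹` of the constant `C`. -/
noncomputable def partialProduct (A : ℤ) (z : ℕ) : ℝ :=
  ∏ p ∈ (Ioc 0 z).filter Nat.Prime, (1 - (omega A p : ℝ) / p) / (1 - 1 / (p : ℝ))

/-- The number of the `1 ≤ k ≤ M` with `k² + 3 k + A` a (positive) prime. -/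
def primeCount (A : ℤ) (M : ℕ) : ℕ := ((Icc 1 M).filter (fun k : ℕ => (value A k).toNat.Prime)).card

/-- The conclusion for `A = c - (h² + 3 h)`: the product over all primes converges to a number `C ≥ κ`, and the number of
primes `k² + 3 k + A`, `k ≤ M`, is `(C / 2) (M - h) / log H` (or `0` for `M ≤ h`) up to `δ (1 + C) H / log H`, for all
`M ≤ K H`. -/
def Good (κ δ : ℝ) (K H h : ℕ) (A : ℤ) : Prop :=
  ∃ C : ℝ, Tendsto (partialProduct A) atTop (𝓝 C) ∧ κ ≤ C ∧
    ∀ M : ℕ, M ≤ K * H →
      |(primeCount A M : ℝ) - C / 2 * (max ((M : ℝ) - h) 0 / Real.log H)| ≤ δ * (1 + C) * (H / Real.log H)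

open Classical in
/-- The number of the `1 ≤ h ≤ H` for which the conclusion fails. -/
noncomputable def exceptions (c : ℤ) (κ δ : ℝ) (K H : ℕ) : ℕ :=
  ((Icc 1 H).filter (fun h : ℕ => ¬ Good κ δ K H h (c - ((h : ℤ) ^ 2 + 3 * h)))).card

/-- **Theorem.** -/
theorem result (c : ℤ) (hc : Odd c) :
    ∀ ε : ℝ, 0 < ε → ∃ κ : ℝ, 0 < κ ∧ ∀ (δ : ℝ) (K : ℕ), 0 < δ → ∃ H₀ : ℕ, ∀ H : ℕ, H₀ ≤ H →
      (exceptions c κ δ K H : ℝ) ≤ ε * H := by
  classical
  intro ε hε
  have hc0 : c ≠ 0 := by
    rintro rfl
    exact (Int.not_odd_zero) hc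
  obtain ⟨κ, hκ, h1⟩ := Pool.Agent.N728.QU.dens 3 c hc0 (fun _ => hc) ε hε
  refine ⟨κ, hκ, fun δ K hδ => ?_⟩
  obtain ⟨H₀, h2⟩ := h1 δ K hδ
  refine ⟨H₀, fun H hH => ?_⟩
  obtain ⟨S, hS1, hS2⟩ := h2 H hH
  refine le_trans ?_ hS1
  unfold exceptions
  rw [Nat.cast_le]
  apply card_le_card
  intro h hh
  rw [mem_filter] at hh
  by_contra hcon
  refine hh.2 ?_
  obtain ⟨C, hC1, hC2, hC3⟩ := hS2 h hh.1 hcon
  have e1 : ∀ (A : ℤ) (m : ℕ), Pool.Agent.N728.QU.dval 3 A m = value A m := by
    intro A m
    unfold Pool.Agent.N728.QU.dval value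
    push_cast
    ring
  have e2 : c - ((h : ℤ) ^ 2 + ((3 : ℕ) : ℤ) * h) = c - ((h : ℤ) ^ 2 + 3 * h) := by push_cast; ring
  rw [e2] at hC1 hC3
  refine ⟨C, ?_, hC2, fun M hM => ?_⟩
  · have e3 : partialProduct (c - ((h : ℤ) ^ 2 + 3 * h)) =
        Pool.Agent.N728.QU.dser 3 (c - ((h : ℤ) ^ 2 + 3 * h)) := by
      funext z
      unfold partialProduct omega Pool.Agent.N728.QU.dser Pool.Agent.N728.QU.dom
      simp only [e1]
    rw [e3]
    exact hC1
  · have h5 := hC3 M hM
    unfold Pool.Agent.N728.QU.dcnt at h5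
    simp only [e1] at h5
    exact h5

end Pool.Agent.Results.MP_d57abb_nt.ThinFamilyDensity
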